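import Pool.Agent.W429.TCI.C.Stmts
import Pool.Agent.W356.TCI.L2
import Pool.Agent.Helper805.Nuc.Reduce
import Pool.Agent.Helper805.NucCert.Super
import Pool.Agent.H999R3.AltCore
set_option autoImplicit false

/-! Assembly of the certificate part. -/

namespace Pool.Agent.W45.TCIC5
open Pool.Agent.Helper805.Nuc.Tens Pool.Agent.Helper805.Nuc.Free Pool.Agent.Helper805.Nuc.NFun
  Pool.Agent.Helper805.Nuc.Alt Pool.Agent.Helper805.NucCert Pool.Agent.W429.TCI
  Pool.Agent.W429.TCI.C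

section
variable {A B : Type} [NonUnitalNonAssocRing A] [NonUnitalNonAssocRing B] (f : A →ₙ+* B)

lemma map_br (a b : A) : f (br a b) = br (f a) (f b) := by unfold br; simp
lemma map_jo (a b : A) : f (jo a b) = jo (f a) (f b) := by unfold jo; simp
lemma map_as (a b c : A) : f (as a b c) = as (f a) (f b) (f c) := by unfold as; simp
lemma map_Fp (a b c d e y : A) : f (Fp a b c d e y) = Fp (f a) (f b) (f c) (f d) (f e) (f y) := by
  unfold Fp; simp only [map_add, map_zsmul, map_br, map_jo, map_as]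
lemma map_nf (x : Fin 5 → A) (y : A) : f (nf x y) = nf (fun i => f (x i)) (f y) := by
  unfold nf; simp only [map_sum, map_zsmul, map_Fp]
lemma map_Gp (a b c d e y : A) : f (Gp a b c d e y) = Gp (f a) (f b) (f c) (f d) (f e) (f y) := by
  unfold Gp; simp only [map_jo, map_as]
lemma map_nstar (x : Fin 5 → A) (y : A) : f (nstar x y) = nstar (fun i => f (x i)) (f y) := by
  unfold nstar; simp only [map_sum, map_zsmul, map_Gp]
end

lemma alt_conv {A : Type} [NonUnitalNonAssocRing A] (hA : IsAlt A) : Pool.Agent.H999R3.IsAlt A := by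
  exact fun x y => ⟨hA.left x y, hA.right x y⟩

lemma zs {F B : Type} [Field F] [NonUnitalNonAssocRing B] [Module F B] {n : ℤ} (hn : (n : F) ≠ 0)
    {b : B} (h : n • b = 0) : b = 0 := by
  rw [← Int.cast_smul_eq_zsmul F n b] at h
  exact (smul_eq_zero.mp h).resolve_left hn

lemma cast_ne {F : Type} [Field F] (h2 : (2 : F) ≠ 0) (h3 : (3 : F) ≠ 0) (a b : ℕ) :
    (((2 : ℤ) ^ a * 3 ^ b : ℤ) : F) ≠ 0 := by
  push_cast
  exact mul_ne_zero (pow_ne_zero _ h2) (pow_ne_zero _ h3)

theorem nfL_srt : ∀ q ∈ nfL, srt q.2.lv = List.range 7 := by decide +kernel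

theorem phL_srt : ∀ q ∈ phL, srt q.2.lv = List.range 6 := by decide +kernel

theorem c5 : S_C5 := by
  intro h1 h3 h4 hc F _ A _ _ _ _ hF2 hF3 hA x y u v
  have hI : IsIdeal F A (ZN F A) := Pool.Agent.W356.TCI.ideal_idealGen _
  set B := Pool.Agent.W356.TCI.Qt (ZN F A) hI with hBdef
  have hB : IsAlt B := Pool.Agent.W356.TCI.qAlt hA
  have hB2 : ∀ b : B, b + b = 0 → b = 0 := by
    intro b hb
    apply zs (F := F) (n := 2) (by exact_mod_cast hF2)
    rw [two_smul, hb]
  have hB3 : ∀ b : B, b + b + b = 0 → b = 0 := by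
    intro b hb
    apply zs (F := F) (n := 3) (by exact_mod_cast hF3)
    have : (3 : ℤ) • b = b + b + b := by
      rw [show (3 : ℤ) = 1 + 1 + 1 by norm_num, add_smul, add_smul, one_smul]
    rw [this, hb]
  have hA2 : ∀ b : A, b + b = 0 → b = 0 := by
    intro b hb
    apply zs (F := F) (n := 2) (by exact_mod_cast hF2)
    rw [two_smul, hb]
  let f : A →ₙ+* B :=
    { toFun := Pool.Agent.W356.TCI.mk hI
      map_mul' := Pool.Agent.W356.TCI.mk_mul
      map_zero' := map_zero _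
      map_add' := map_add _ }
  have hfs : Function.Surjective f := Pool.Agent.W356.TCI.mk_surj
  have hf0 : ∀ a : A, f a = 0 ↔ a ∈ ZN F A := by
    intro a
    have h5 : f a = f 0 ↔ a - 0 ∈ ZN F A := Pool.Agent.W356.TCI.mk_eq
    rw [map_zero, sub_zero] at h5
    exact h5
  have hnucZ : ∀ n : A, IsNuc n → ∀ a, f (br n a) = 0 := by
    intro n hn a
    rw [hf0]
    exact Pool.Agent.W356.TCI.subset_idealGen (Φ := F) (A := A)
      {z | ∃ n ∈ nucleus F A, ∃ t, z = n * t - t * n} ⟨n, (mem_nucleus hA).mpr hn, a, rfl⟩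
  have hnf : ∀ (x : Fin 5 → B) (y a : B), br (nf x y) a = 0 := by
    intro x y a
    obtain ⟨y, rfl⟩ := hfs y
    obtain ⟨a, rfl⟩ := hfs a
    choose x' hx' using fun i => hfs (x i)
    have hx : x = fun i => f (x' i) := funext fun i => (hx' i).symm
    rw [hx, ← map_nf, ← map_br]
    apply hnucZ
    intro r s
    have h5 := Pool.Agent.Helper805.Nuc.Reduce.nuc_of_cert 373248
      (fun R _ P hP x hx y hy z hz => nuc_super hP hx hz hy) A hA x' y r s
    refine zs (F := F) (n := 2 ^ 10 * 3 ^ 6) (cast_ne hF2 hF3 10 6) ?_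
    norm_num at h5 ⊢
    exact h5
  have hph : ∀ x y a : B, br (br (br x y * br x y) x) a = 0 := by
    intro x y a
    obtain ⟨x, rfl⟩ := hfs x
    obtain ⟨y, rfl⟩ := hfs y
    obtain ⟨a, rfl⟩ := hfs a
    rw [← map_br, ← map_mul, ← map_br, ← map_br]
    apply hnucZ
    exact Pool.Agent.H999R3.nuc_basic (alt_conv hA) hA2 x y
  obtain ⟨i1, i2⟩ := h3 B hB hB2 hB3 hnf hph
  have s1 : SRel (PP (A := B) (n := 7)) nfL := h1 B 7 7 nfL nfL_srt i1
  have s2 : SRel (PP (A := B) (n := 7)) phL := h1 B 7 6 phL phL_srt i2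
  have h6 := h4 B hB 82944 (fun a ha b hb c hc' =>
    hc (TS B 7) (PP (A := B) (n := 7)) (superAlt hB) s1 s2 a ha b hb c hc')
    (fun i => f (x i)) (f y) (f u) (f v)
  have h7 : as (nstar (fun i => f (x i)) (f y)) (f u) (f v) = 0 := by
    refine zs (F := F) (n := 2 ^ 11 * 3 ^ 4) (cast_ne hF2 hF3 11 4) ?_
    norm_num at h6 ⊢
    exact h6
  rw [← map_nstar, ← map_as, hf0] at h7
  exact h7

end Pool.Agent.W45.TCIC5
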